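import Mathlib
import Pool.Agent.Lib.MP_acd470_co.Factor

set_option autoImplicit false

namespace Pool.Agent.Results.MP_acd470_co.Threshold

open Finset Filter Pool.Agent.Lib.MP_acd470_co

/-- `w` is an edge weighting of the complete graph with vertex set `Fin n`: every edge (unordered
pair of distinct vertices) has weight in `[0,1]`. -/
def IsWeighting {n : ℕ} (w : Sym2 (Fin n) → ℝ) : Prop :=
  ∀ e : Sym2 (Fin n), ¬ e.IsDiag → 0 ≤ w e ∧ w e ≤ 1

/-- The weighted degree of the vertex `v`. -/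
noncomputable def wdeg {n : ℕ} (w : Sym2 (Fin n) → ℝ) (v : Fin n) : ℝ :=
  ∑ u ∈ Finset.univ.erase v, w s(v, u)

/-- The minimum weighted degree. -/
noncomputable def minDeg {n : ℕ} (w : Sym2 (Fin n) → ℝ) : ℝ := ⨅ v : Fin n, wdeg w v

/-- `F` is (the family of vertex sets of) a `K_r`-factor of the complete graph on `Fin n`. -/
def IsFactor (r n : ℕ) (F : Finset (Finset (Fin n))) : Prop :=
  (∀ K ∈ F, K.card = r) ∧ (∀ K ∈ F, ∀ K' ∈ F, K ≠ K' → Disjoint K K') ∧
    ∀ v : Fin n, ∃ K ∈ F, v ∈ K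

/-- The total weight of the edges inside the vertex set `K`. -/
noncomputable def cliqueWeight {n : ℕ} (w : Sym2 (Fin n) → ℝ) (K : Finset (Fin n)) : ℝ :=
  ∑ e ∈ K.sym2 with ¬ e.IsDiag, w e

/-- The set `𝒲(r,t,n)`. -/
def badWeightings (r : ℕ) (t : ℝ) (n : ℕ) : Set (Sym2 (Fin n) → ℝ) :=
  {w | IsWeighting w ∧ ∀ F, IsFactor r n F → ∃ K ∈ F, cliqueWeight w K < t * (r.choose 2 : ℕ)}

/-- The number `δ(r,t,n)`. -/
noncomputable def deltaN (r : ℕ) (t : ℝ) (n : ℕ) : ℝ := sSup (minDeg '' badWeightings r t n)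

/-- The number `δ(r,t)`: the limsup of `δ(r,t,n)/n` over `n → ∞` with `r ∣ n`. -/
noncomputable def delta (r : ℕ) (t : ℝ) : ℝ :=
  limsup (fun n : ℕ => deltaN r t n / n) (atTop ⊓ 𝓟 {n : ℕ | r ∣ n})

lemma cliqueWeight_eq {n : ℕ} (w : Sym2 (Fin n) → ℝ) (K : Finset (Fin n)) :
    ∑ u ∈ K, ∑ v ∈ K, (if u = v then 0 else w s(u, v)) = 2 * cliqueWeight w K := by
  unfold cliqueWeight
  rw [Finset.sum_sym2_filter_not_isDiag]
  have h1 : ∑ u ∈ K, ∑ v ∈ K, (if u = v then 0 else w s(u, v)) =
      ∑ i ∈ K.offDiag, w s(i.1, i.2) := by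
    rw [← Finset.sum_product']
    rw [Finset.sum_ite, Finset.sum_const_zero, zero_add]
    apply Finset.sum_congr _ (fun _ _ => rfl)
    ext ⟨a, b⟩
    simp only [Finset.mem_filter, Finset.mem_product, Finset.mem_offDiag]
    tauto
  rw [h1, ← Finset.sum_filter_add_sum_filter_not K.offDiag (fun i => i.1 < i.2), two_mul]
  congr 1
  apply Finset.sum_nbij' (fun i => (i.2, i.1)) (fun i => (i.2, i.1))
  · rintro ⟨a, b⟩ h
    simp only [Finset.mem_filter, Finset.mem_offDiag, not_lt] at h ⊢
    exact ⟨⟨h.1.2.1, h.1.1, h.1.2.2.symm⟩, lt_of_le_of_ne h.2 h.1.2.2.symm⟩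
  · rintro ⟨a, b⟩ h
    simp only [Finset.mem_filter, Finset.mem_offDiag, not_lt] at h ⊢
    exact ⟨⟨h.1.2.1, h.1.1, h.1.2.2.symm⟩, h.2.le⟩
  · rintro ⟨a, b⟩ _; rfl
  · rintro ⟨a, b⟩ _; rfl
  · rintro ⟨a, b⟩ _
    rw [Sym2.eq_swap]

/-- The minimum degree is at most `n`. -/
lemma minDeg_le {n : ℕ} (hn : 0 < n) {w : Sym2 (Fin n) → ℝ} (hw : IsWeighting w) :
    minDeg w ≤ n := by
  have : Nonempty (Fin n) := ⟨⟨0, hn⟩⟩
  unfold minDeg
  refine (ciInf_le (Set.finite_range _).bddBelow (⟨0, hn⟩ : Fin n)).trans ?_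
  unfold wdeg
  calc ∑ u ∈ Finset.univ.erase (⟨0, hn⟩ : Fin n), w s(⟨0, hn⟩, u)
      ≤ ∑ _u ∈ Finset.univ.erase (⟨0, hn⟩ : Fin n), (1 : ℝ) := by
        apply Finset.sum_le_sum
        intro u hu
        apply (hw _ _).2
        rw [Sym2.mk_isDiag_iff]
        exact (Finset.ne_of_mem_erase hu).symm
    _ ≤ n := by
        rw [Finset.sum_const, nsmul_eq_mul, mul_one]
        have h1 : (Finset.univ.erase (⟨0, hn⟩ : Fin n)).card ≤ n := by
          refine (Finset.card_le_card (Finset.erase_subset _ _)).trans ?_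
          simp
        exact_mod_cast h1

/-- The upper bound on the minimum degree of a bad weighting. -/
lemma upper_aux (r : ℕ) (hr : 2 ≤ r) (t : ℝ) (ht1 : t < 1) (ε : ℝ) (hε : 0 < ε) :
    ∃ n₀ : ℕ, ∀ n : ℕ, n₀ ≤ n → r ∣ n → ∀ w ∈ badWeightings r t n,
      minDeg w ≤ (1 / (r : ℝ) + (1 - 1 / (r : ℝ)) * t + ε) * n := by
  have hr2 : (2 : ℝ) ≤ r := by exact_mod_cast hr
  have hr0 : (r : ℝ) ≠ 0 := by positivity
  have h1t : 0 < 1 - t := by linarith
  obtain ⟨n₀, hn₀⟩ := factor_cost r hr (ε / (3 * (1 - t))) (by positivity) ((r : ℝ) ^ 2) le_rfl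
  refine ⟨n₀ + 1, ?_⟩
  intro n hn hdvd w hw
  by_contra hlt
  push Not at hlt
  obtain ⟨hwt, hbad⟩ := hw
  have hnpos : 0 < n := by omega
  have : Nonempty (Fin n) := ⟨⟨0, hnpos⟩⟩
  have hdeg : ∀ v, (1 / (r : ℝ) + (1 - 1 / (r : ℝ)) * t + ε) * n < wdeg w v := by
    intro v
    refine lt_of_lt_of_le hlt ?_
    exact ciInf_le (Set.finite_range _).bddBelow v
  set z : Fin n → Fin n → ℝ := fun u v =>
    if u = v then 0 else min ((1 - w s(u, v)) / (1 - t)) ((r : ℝ) ^ 2) with hz
  have hw01 : ∀ u v : Fin n, u ≠ v → 0 ≤ w s(u, v) ∧ w s(u, v) ≤ 1 := by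
    intro u v huv
    apply hwt
    rw [Sym2.mk_isDiag_iff]; exact huv
  have hzc : IsCost ((r : ℝ) ^ 2) z := by
    refine ⟨?_, ?_, ?_, ?_⟩
    · intro u v
      simp only [hz]
      by_cases h : u = v
      · rw [if_pos h, if_pos h.symm]
      · rw [if_neg h, if_neg (Ne.symm h), Sym2.eq_swap]
    · intro v; simp only [hz, if_true]
    · intro u v
      simp only [hz]
      split_ifs with h
      · exact le_refl _
      · apply le_min
        · apply div_nonneg _ h1t.le
          linarith [(hw01 u v h).2]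
        · positivity
    · intro u v
      simp only [hz]
      split_ifs
      · positivity
      · exact min_le_right _ _
  have hT := hn₀ (Fin n) z hzc (by rw [Fintype.card_fin]; omega) (by rwa [Fintype.card_fin]) (by
    intro v
    rw [Fintype.card_fin]
    have h1 : ∑ u, z v u ≤ ∑ u ∈ Finset.univ.erase v, (1 - w s(v, u)) / (1 - t) := by
      rw [← Finset.add_sum_erase Finset.univ _ (Finset.mem_univ v)]
      have h2 : z v v = 0 := hzc.diag v
      rw [h2, zero_add]
      apply Finset.sum_le_sum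
      intro u hu
      have h3 : v ≠ u := (Finset.ne_of_mem_erase hu).symm
      simp only [hz]
      rw [if_neg h3]
      exact min_le_left _ _
    have h4 : ∑ u ∈ Finset.univ.erase v, (1 - w s(v, u)) / (1 - t) =
        (((Finset.univ.erase v).card : ℝ) - wdeg w v) / (1 - t) := by
      unfold wdeg
      rw [← Finset.sum_div, Finset.sum_sub_distrib, Finset.sum_const, nsmul_eq_mul, mul_one]
    have h5 : ((Finset.univ.erase v).card : ℝ) ≤ n := by
      have h6 : (Finset.univ.erase v).card ≤ n := by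
        refine (Finset.card_le_card (Finset.erase_subset _ _)).trans ?_
        simp
      exact_mod_cast h6
    rw [h4] at h1
    refine h1.trans ?_
    rw [div_le_iff₀ h1t]
    have h7 := hdeg v
    have h8 : (1 - 1 / (r : ℝ) - 3 * (ε / (3 * (1 - t)))) * (n : ℝ) * (1 - t) =
        n - (1 / (r : ℝ) + (1 - 1 / (r : ℝ)) * t + ε) * n := by
      field_simp
      ring
    rw [h8]
    linarith)
  obtain ⟨M, hM, hMc⟩ := hT
  obtain ⟨K, hK, hKw⟩ := hbad M ⟨fun K hK => (hM.good K hK).1, hM.disj, fun v => by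
    have : v ∈ cov M := by rw [hMc]; exact Finset.mem_univ v
    exact mem_cov.mp this⟩
  have hKg := hM.good K hK
  -- no truncation inside `K`
  have hno : ∀ u ∈ K, ∀ v ∈ K, u ≠ v → (1 - w s(u, v)) / (1 - t) ≤ z u v := by
    intro u hu v hv huv
    have h1 : z u v + z v u ≤ cost z K := by
      unfold cost
      have a1 := Finset.add_sum_erase K (fun u => ∑ v ∈ K, z u v) hu
      have a2 := Finset.add_sum_erase (K.erase u) (fun u => ∑ v ∈ K, z u v)
        (Finset.mem_erase.mpr ⟨huv.symm, hv⟩)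
      have a3 : 0 ≤ ∑ x ∈ (K.erase u).erase v, ∑ y ∈ K, z x y :=
        Finset.sum_nonneg fun u _ => Finset.sum_nonneg fun v _ => hzc.nonneg _ _
      have a4 : z u v ≤ ∑ y ∈ K, z u y :=
        Finset.single_le_sum (f := fun y => z u y) (fun v _ => hzc.nonneg _ _) hv
      have a5 : z v u ≤ ∑ y ∈ K, z v y :=
        Finset.single_le_sum (f := fun y => z v y) (fun v _ => hzc.nonneg _ _) hu
      linarith
    have h2 := hKg.2
    have h3 := hzc.symm v u
    have h4 : z u v < (r : ℝ) ^ 2 := by nlinarith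
    have h5 : z u v = min ((1 - w s(u, v)) / (1 - t)) ((r : ℝ) ^ 2) := by
      simp only [hz]; rw [if_neg huv]
    rw [h5] at h4 ⊢
    rcases le_total ((1 - w s(u, v)) / (1 - t)) ((r : ℝ) ^ 2) with h6 | h6
    · rw [min_eq_left h6]
    · rw [min_eq_right h6] at h4
      exact absurd h4 (lt_irrefl _)
  have hle : ∑ u ∈ K, ∑ v ∈ K, (if u = v then 0 else (1 - w s(u, v)) / (1 - t)) ≤
      (r : ℝ) * (r - 1) := by
    refine le_trans ?_ hKg.2
    unfold cost
    apply Finset.sum_le_sum
    intro u hu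
    apply Finset.sum_le_sum
    intro v hv
    split_ifs with h
    · exact hzc.nonneg _ _
    · exact hno u hu v hv h
  have heq : ∑ u ∈ K, ∑ v ∈ K, (if u = v then 0 else (1 - w s(u, v)) / (1 - t)) =
      ((r : ℝ) * (r - 1) - 2 * cliqueWeight w K) / (1 - t) := by
    rw [← cliqueWeight_eq w K]
    have h1 : ∀ u ∈ K, ∑ v ∈ K, (if u = v then (0 : ℝ) else (1 - w s(u, v)) / (1 - t)) =
        (((r : ℝ) - 1) - ∑ v ∈ K, (if u = v then 0 else w s(u, v))) / (1 - t) := by
      intro u hu
      have h2 : ∀ v ∈ K, (if u = v then (0 : ℝ) else (1 - w s(u, v)) / (1 - t)) =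
          ((1 - (if u = v then (1 : ℝ) else 0)) - (if u = v then 0 else w s(u, v))) / (1 - t) := by
        intro v _
        split_ifs <;> simp
      rw [Finset.sum_congr rfl h2, ← Finset.sum_div, Finset.sum_sub_distrib,
        Finset.sum_sub_distrib, Finset.sum_const, nsmul_eq_mul, mul_one,
        Finset.sum_ite_eq K u, if_pos hu, hKg.1]
    rw [Finset.sum_congr rfl h1, ← Finset.sum_div, Finset.sum_sub_distrib, Finset.sum_const,
      nsmul_eq_mul, hKg.1]
  rw [heq, div_le_iff₀ h1t] at hle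
  have hch : ((r.choose 2 : ℕ) : ℝ) = r * (r - 1) / 2 := Nat.cast_choose_two ℝ r
  rw [hch] at hKw
  linarith

/-- The weighting of the lower bound. -/
noncomputable def lowW (n s : ℕ) (x : ℝ) : Sym2 (Fin n) → ℝ := fun e =>
  if ∃ v ∈ e, (v : ℕ) < s then 1 else x

/-- The lower bound. -/
lemma lower_aux (r : ℕ) (hr : 2 ≤ r) (t : ℝ) (ht1 : t ≤ 1) (m : ℕ) (hm : 0 < m)
    (η : ℝ) (hη0 : 0 < η) (hηt : η ≤ t) :
    ∃ w ∈ badWeightings r t (r * m),
      ((m : ℝ) - 1) + ((r * m : ℕ) - (m : ℝ)) * (t - η) ≤ minDeg w := by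
  have hr2 : (2 : ℝ) ≤ r := by exact_mod_cast hr
  have hn : 0 < r * m := Nat.mul_pos (by omega) hm
  have hmn : m ≤ r * m := Nat.le_mul_of_pos_left m (by omega)
  have hlow : ∀ u v : Fin (r * m), lowW (r * m) (m - 1) (t - η) s(u, v) =
      if (u : ℕ) < m - 1 ∨ (v : ℕ) < m - 1 then 1 else t - η := by
    intro u v
    unfold lowW
    by_cases h : (u : ℕ) < m - 1 ∨ (v : ℕ) < m - 1
    · rw [if_pos h, if_pos]
      rcases h with h | h
      · exact ⟨u, by simp, h⟩
      · exact ⟨v, by simp, h⟩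
    · rw [if_neg h, if_neg]
      rintro ⟨x, hx, hlt⟩
      rw [Sym2.mem_iff] at hx
      rcases hx with rfl | rfl
      · exact h (Or.inl hlt)
      · exact h (Or.inr hlt)
  refine ⟨lowW (r * m) (m - 1) (t - η), ⟨?_, ?_⟩, ?_⟩
  · intro e _
    unfold lowW
    split_ifs
    · norm_num
    · exact ⟨by linarith, by linarith⟩
  · intro F hF
    obtain ⟨hF1, hF2, hF3⟩ := hF
    -- some clique avoids the first `m - 1` vertices
    have hcard : r * F.card = r * m := by
      have h1 : F.biUnion id = (Finset.univ : Finset (Fin (r * m))) := by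
        ext v; simp only [Finset.mem_biUnion, id, Finset.mem_univ, iff_true]
        exact hF3 v
      have h2 : (F.biUnion id).card = ∑ K ∈ F, (id K : Finset (Fin (r * m))).card :=
        Finset.card_biUnion (fun K hK L hL hne => hF2 K hK L hL hne)
      rw [h1, Finset.card_univ, Fintype.card_fin] at h2
      simp only [id] at h2
      rw [Finset.sum_congr rfl hF1, Finset.sum_const, smul_eq_mul] at h2
      rw [mul_comm r F.card]; exact h2.symm
    have hFm : F.card = m := Nat.eq_of_mul_eq_mul_left (by omega) hcard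
    have hex : ∃ K ∈ F, ∀ v ∈ K, ¬ (v : ℕ) < m - 1 := by
      by_contra hno
      push Not at hno
      have : Nonempty (Fin (r * m)) := ⟨⟨0, hn⟩⟩
      choose! f hf using hno
      have hinj : Set.InjOn (fun K => ((f K : Fin (r * m)) : ℕ)) (F : Set (Finset (Fin (r * m)))) := by
        intro K hK L hL hKL
        by_contra hne
        have h1 : f K = f L := Fin.ext hKL
        have h2 := (hf K hK).1
        have h3 := (hf L hL).1
        rw [h1] at h2
        exact Finset.disjoint_left.mp (hF2 K hK L hL hne) h2 h3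
      have h1 : F.card ≤ (Finset.range (m - 1)).card := by
        apply Finset.card_le_card_of_injOn (fun K => ((f K : Fin (r * m)) : ℕ)) _ hinj
        intro K hK
        simp only [Finset.coe_range, Set.mem_Iio]
        exact (hf K hK).2
      rw [Finset.card_range] at h1
      omega
    obtain ⟨K, hK, hKv⟩ := hex
    refine ⟨K, hK, ?_⟩
    have h1 := cliqueWeight_eq (lowW (r * m) (m - 1) (t - η)) K
    have h2 : ∑ u ∈ K, ∑ v ∈ K, (if u = v then 0 else lowW (r * m) (m - 1) (t - η) s(u, v)) =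
        (r : ℝ) * (r - 1) * (t - η) := by
      have h3 : ∀ u ∈ K, ∑ v ∈ K, (if u = v then 0 else lowW (r * m) (m - 1) (t - η) s(u, v)) =
          ((r : ℝ) - 1) * (t - η) := by
        intro u hu
        have h4 : ∀ v ∈ K, (if u = v then 0 else lowW (r * m) (m - 1) (t - η) s(u, v)) =
            (t - η) - (if u = v then (t - η) else 0) := by
          intro v hv
          by_cases huv : u = v
          · rw [if_pos huv, if_pos huv]; ring
          · rw [if_neg huv, if_neg huv, hlow, if_neg]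
            · ring
            · push Not
              exact ⟨not_lt.mp (hKv u hu), not_lt.mp (hKv v hv)⟩
        rw [Finset.sum_congr rfl h4, Finset.sum_sub_distrib, Finset.sum_const, nsmul_eq_mul,
          Finset.sum_ite_eq K u, if_pos hu, hF1 K hK]
        ring
      rw [Finset.sum_congr rfl h3, Finset.sum_const, nsmul_eq_mul, hF1 K hK]
      ring
    have hch : ((r.choose 2 : ℕ) : ℝ) = r * (r - 1) / 2 := Nat.cast_choose_two ℝ r
    rw [hch]
    have h5 : 0 < (r : ℝ) * (r - 1) := by nlinarith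
    nlinarith
  · have : Nonempty (Fin (r * m)) := ⟨⟨0, hn⟩⟩
    unfold minDeg
    apply le_ciInf
    intro v
    unfold wdeg
    have h1 : ∀ u ∈ Finset.univ.erase v, (t - η) + (if (u : ℕ) < m - 1 then 1 - (t - η) else 0) ≤
        lowW (r * m) (m - 1) (t - η) s(v, u) := by
      intro u _
      rw [hlow]
      by_cases hu : (u : ℕ) < m - 1
      · rw [if_pos hu, if_pos (Or.inr hu)]; linarith
      · rw [if_neg hu]
        split_ifs <;> linarith
    have hnn : 0 ≤ 1 - (t - η) := by linarith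
    have hcardlt : (Finset.univ.filter (fun u : Fin (r * m) => (u : ℕ) < m - 1)).card = m - 1 := by
      have h2 : (Finset.univ.filter (fun u : Fin (r * m) => (u : ℕ) < m - 1)) =
          (Finset.range (m - 1)).attachFin (fun i hi => by
            rw [Finset.mem_range] at hi; omega) := by
        ext u; simp
      rw [h2, Finset.card_attachFin, Finset.card_range]
    have hsumall : ∑ u : Fin (r * m), (if (u : ℕ) < m - 1 then 1 - (t - η) else 0) =
        ((m - 1 : ℕ) : ℝ) * (1 - (t - η)) := by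
      rw [← Finset.sum_filter, Finset.sum_const, hcardlt, nsmul_eq_mul]
    have hm1 : ((m - 1 : ℕ) : ℝ) = (m : ℝ) - 1 := by
      rw [Nat.cast_sub hm]; simp
    have hcarde : ((Finset.univ.erase v).card : ℝ) = ((r * m : ℕ) : ℝ) - 1 := by
      rw [Finset.card_erase_of_mem (Finset.mem_univ v), Finset.card_univ, Fintype.card_fin,
        Nat.cast_sub hn]
      simp
    by_cases hv : (v : ℕ) < m - 1
    · -- all edges at `v` have weight 1
      have h3 : ∑ u ∈ Finset.univ.erase v, lowW (r * m) (m - 1) (t - η) s(v, u) =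
          ((r * m : ℕ) : ℝ) - 1 := by
        rw [Finset.sum_congr rfl (g := fun _ => (1 : ℝ)) (fun u _ => by
          rw [hlow, if_pos (Or.inl hv)])]
        rw [Finset.sum_const, nsmul_eq_mul, mul_one, hcarde]
      rw [h3]
      have h4 : (m : ℝ) ≤ ((r * m : ℕ) : ℝ) := by exact_mod_cast hmn
      have h5 : ((r * m : ℕ) - (m : ℝ)) * (t - η) ≤ ((r * m : ℕ) - (m : ℝ)) * 1 :=
        mul_le_mul_of_nonneg_left (by linarith) (by linarith)
      linarith
    · have h3 := Finset.sum_le_sum h1
      refine le_trans ?_ h3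
      rw [Finset.sum_add_distrib, Finset.sum_const, nsmul_eq_mul, hcarde]
      have h4 := Finset.add_sum_erase Finset.univ
        (fun u : Fin (r * m) => (if (u : ℕ) < m - 1 then 1 - (t - η) else 0)) (Finset.mem_univ v)
      rw [if_neg hv, zero_add, hsumall, hm1] at h4
      rw [h4]
      nlinarith

/-- The weighted Hajnal-Szemeredi threshold. -/
theorem result : ∀ r : ℕ, 2 ≤ r → ∀ t : ℝ, 0 < t → t ≤ 1 →
    delta r t = 1 / (r : ℝ) + (1 - 1 / (r : ℝ)) * t := by
  intro r hr t ht0 ht1
  have hr2 : (2 : ℝ) ≤ r := by exact_mod_cast hr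
  have hrpos : (0 : ℝ) < r := by linarith
  set L : ℝ := 1 / (r : ℝ) + (1 - 1 / (r : ℝ)) * t with hL
  have hinv : 0 < 1 / (r : ℝ) := by positivity
  have hinv1 : 1 / (r : ℝ) ≤ 1 := by rw [div_le_one hrpos]; linarith
  have hL0 : 0 < L := by
    rw [hL]
    have : 0 ≤ (1 - 1 / (r : ℝ)) * t := mul_nonneg (by linarith) ht0.le
    linarith
  have hne : (atTop ⊓ 𝓟 {n : ℕ | r ∣ n}).NeBot := by
    rw [Filter.inf_principal_neBot_iff]
    intro U hU
    rw [Filter.mem_atTop_sets] at hU
    obtain ⟨N, hN⟩ := hU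
    exact ⟨r * N, hN _ (Nat.le_mul_of_pos_left N (by omega)), dvd_mul_right r N⟩
  have htend : Tendsto (fun n : ℕ => deltaN r t n / n) (atTop ⊓ 𝓟 {n : ℕ | r ∣ n}) (nhds L) := by
    rw [tendsto_order]
    constructor
    · intro a ha
      rw [Filter.eventually_inf_principal]
      -- choose parameters
      set ε : ℝ := (L - a) / 3 with hε
      have hε0 : 0 < ε := by rw [hε]; linarith
      obtain ⟨N, hN⟩ := exists_nat_gt (1 / ε)
      filter_upwards [Filter.eventually_ge_atTop (N + 1)] with n hn hdvd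
      obtain ⟨m, rfl⟩ := hdvd
      have hm : 0 < m := by
        rcases Nat.eq_zero_or_pos m with h | h
        · subst h; simp at hn
        · exact h
      have hnpos : (0 : ℝ) < ((r * m : ℕ) : ℝ) := by
        have : 0 < r * m := by omega
        exact_mod_cast this
      set η : ℝ := min t ε with hη
      have hη0 : 0 < η := lt_min ht0 hε0
      obtain ⟨w, hw, hwd⟩ := lower_aux r hr t ht1 m hm η hη0 (min_le_left _ _)
      have h1 : minDeg w ≤ deltaN r t (r * m) := by
        unfold deltaN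
        apply le_csSup
        · refine ⟨((r * m : ℕ) : ℝ), ?_⟩
          rintro _ ⟨w', hw', rfl⟩
          exact minDeg_le (by omega) hw'.1
        · exact ⟨w, hw, rfl⟩
      rw [lt_div_iff₀ hnpos]
      refine lt_of_lt_of_le ?_ (hwd.trans h1)
      have h2 : ((r * m : ℕ) : ℝ) = r * m := by push_cast; ring
      have h3 : L * ((r * m : ℕ) : ℝ) = m + ((r * m : ℕ) - (m : ℝ)) * t := by
        rw [hL, h2]; field_simp
      have h4 : 1 < ε * ((r * m : ℕ) : ℝ) := by
        have h5 : (N : ℝ) + 1 ≤ ((r * m : ℕ) : ℝ) := by exact_mod_cast hn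
        rw [div_lt_iff₀ hε0] at hN
        nlinarith
      have h5 : ((r * m : ℕ) - (m : ℝ)) * η ≤ ε * ((r * m : ℕ) : ℝ) := by
        have h6 : η ≤ ε := min_le_right _ _
        have h7 : (0 : ℝ) ≤ m := by positivity
        have h8 : ((r * m : ℕ) - (m : ℝ)) * η ≤ ((r * m : ℕ) : ℝ) * η :=
          mul_le_mul_of_nonneg_right (by linarith) hη0.le
        nlinarith
      have h9 : a = L - 3 * ε := by rw [hε]; ring
      rw [h9]
      nlinarith
    · intro a ha
      rw [Filter.eventually_inf_principal]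
      rcases ht1.lt_or_eq with ht | ht
      · obtain ⟨n₀, hn₀⟩ := upper_aux r hr t ht ((a - L) / 2) (by linarith)
        filter_upwards [Filter.eventually_ge_atTop (n₀ + 1)] with n hn hdvd
        have hnpos : (0 : ℝ) < n := by
          have : 0 < n := by omega
          exact_mod_cast this
        rw [div_lt_iff₀ hnpos]
        have h1 : deltaN r t n ≤ (L + (a - L) / 2) * n := by
          unfold deltaN
          apply Real.sSup_le
          · rintro _ ⟨w, hw, rfl⟩
            exact hn₀ n (by omega) hdvd w hw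
          · apply mul_nonneg _ hnpos.le
            linarith
        nlinarith
      · filter_upwards [Filter.eventually_ge_atTop 1] with n hn _
        have hnpos : (0 : ℝ) < n := by
          have : 0 < n := by omega
          exact_mod_cast this
        rw [div_lt_iff₀ hnpos]
        have hL1 : L = 1 := by rw [hL, ht]; ring
        have h1 : deltaN r t n ≤ n := by
          unfold deltaN
          apply Real.sSup_le
          · rintro _ ⟨w, hw, rfl⟩
            exact minDeg_le (by omega) hw.1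
          · exact hnpos.le
        nlinarith
  exact htend.limsup_eq

end Pool.Agent.Results.MP_acd470_co.Threshold
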